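import Mathlib

/-!
# Project PRL, piece INF: unramified extensions of odd degree of a complete local field (helper270)
-/

set_option autoImplicit false
set_option linter.all false

open Polynomial IsDedekindDomain
open scoped Classical

namespace Run7.h270.PL

/-- every nonzero polynomial over the field is a constant times a primitive one -/
theorem exists_prim {R E : Type} [CommRing R] [Field E] [Algebra R E]
    (w : Valuation E (WithZero (Multiplicative ℤ))) (hw : w.Integers R) (H : E[X]) (hH : H ≠ 0) :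
    ∃ (l : E) (H₂ : R[X]) (j : ℕ), l ≠ 0 ∧ H = C l * H₂.map (algebraMap R E) ∧ H₂.coeff j = 1 ∧
      H₂.natDegree = H.natDegree := by
  obtain ⟨j, hj, hmax⟩ := Finset.exists_max_image H.support (fun i => w (H.coeff i))
    (support_nonempty.2 hH)
  have hl : H.coeff j ≠ 0 := mem_support_iff.1 hj
  have h3 : w (H.coeff j) ≠ 0 := (Valuation.ne_zero_iff w).2 hl
  have hlift : C (H.coeff j)⁻¹ * H ∈ lifts (algebraMap R E) := by
    rw [lifts_iff_coeff_lifts]
    intro i
    rw [coeff_C_mul]
    have h1 : w ((H.coeff j)⁻¹ * H.coeff i) ≤ 1 := by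
      rw [map_mul, map_inv₀]
      have h2 : w (H.coeff i) ≤ w (H.coeff j) := by
        by_cases hi : i ∈ H.support
        · exact hmax i hi
        · rw [notMem_support_iff.1 hi, map_zero]
          exact zero_le
      calc (w (H.coeff j))⁻¹ * w (H.coeff i) ≤ (w (H.coeff j))⁻¹ * w (H.coeff j) :=
            mul_le_mul_right h2 _
        _ = 1 := inv_mul_cancel₀ h3
    obtain ⟨x, hx⟩ := hw.exists_of_le_one h1
    exact ⟨x, hx⟩
  obtain ⟨H₂, hH₂, hdeg⟩ := exists_natDegree_eq_of_mem_lifts hlift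
  refine ⟨H.coeff j, H₂, j, hl, ?_, ?_, ?_⟩
  · rw [hH₂, ← mul_assoc, ← C_mul, mul_inv_cancel₀ hl, C_1, one_mul]
  · apply hw.hom_inj
    rw [← coeff_map, hH₂, coeff_C_mul, inv_mul_cancel₀ hl, map_one]
  · rw [hdeg, natDegree_C_mul (inv_ne_zero hl)]

/-- finite fields: extensions of odd degree -/
theorem sq_or {κ : Type} [Field κ] [Finite κ] (h2 : (2 : κ) ≠ 0) {r h : κ[X]} (hr : Irreducible r)
    (hrm : r.Monic) (hodd : Odd r.natDegree) (hh : ¬ r ∣ h) :
    ∃ (ε : κ) (s : κ[X]), ε ≠ 0 ∧ r ∣ C ε * h - s ^ 2 := by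
  haveI : Fact (Irreducible r) := ⟨hr⟩
  haveI : Module.Finite κ (AdjoinRoot r) := hrm.finite_adjoinRoot
  haveI : Finite (AdjoinRoot r) := Module.finite_of_finite κ
  have hmk : ∀ p : κ[X], r ∣ p ↔ AdjoinRoot.mk r p = 0 := fun p => (AdjoinRoot.mk_eq_zero).symm
  by_cases hsq : IsSquare (AdjoinRoot.mk r h)
  · obtain ⟨y, hy⟩ := hsq
    obtain ⟨s, rfl⟩ := AdjoinRoot.mk_surjective y
    refine ⟨1, s, one_ne_zero, ?_⟩
    rw [hmk, C_1, one_mul, map_sub, map_pow, hy]
    ring
  · have hchar : ringChar κ ≠ 2 := by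
      intro hc
      apply h2
      have := CharP.cast_eq_zero κ (ringChar κ)
      rw [hc] at this
      exact_mod_cast this
    letI := Fintype.ofFinite κ
    letI := Fintype.ofFinite (AdjoinRoot r)
    obtain ⟨ν, hν⟩ := FiniteField.exists_nonsquare hchar
    have hν0 : ν ≠ 0 := by
      rintro rfl
      exact hν ⟨0, by simp⟩
    have hνF : ¬ IsSquare (AdjoinRoot.mk r (C ν)) := by
      rintro ⟨y, hy⟩
      apply hν
      have h1 : ν ^ r.natDegree = Algebra.norm κ y * Algebra.norm κ y := by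
        rw [← map_mul, ← hy]
        have e : AdjoinRoot.mk r (C ν) = algebraMap κ (AdjoinRoot r) ν := rfl
        rw [e, Algebra.norm_algebraMap, (AdjoinRoot.powerBasis hrm.ne_zero).finrank,
          AdjoinRoot.powerBasis_dim]
      obtain ⟨m, hm⟩ := hodd
      rw [hm] at h1
      refine ⟨Algebra.norm κ y * (ν ^ m)⁻¹, ?_⟩
      have : ν ^ m ≠ 0 := pow_ne_zero _ hν0
      field_simp
      linear_combination h1
    have hprod : IsSquare (AdjoinRoot.mk r (C ν * h)) := by
      have h0 : AdjoinRoot.mk r (C ν * h) ≠ 0 := by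
        rw [map_mul]
        refine mul_ne_zero ?_ fun h0 => hh ((hmk h).2 h0)
        intro h0
        exact hνF ⟨0, by rw [h0, mul_zero]⟩
      rw [← quadraticChar_one_iff_isSquare h0, map_mul, map_mul,
        quadraticChar_neg_one_iff_not_isSquare.2 hνF, quadraticChar_neg_one_iff_not_isSquare.2 hsq]
      norm_num
    obtain ⟨y, hy⟩ := hprod
    obtain ⟨s, rfl⟩ := AdjoinRoot.mk_surjective y
    refine ⟨ν, s, hν0, ?_⟩
    rw [hmk, map_sub, map_pow, hy]
    ring

/-- a class in an unramified extension of odd degree is a constant times a square -/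
theorem local_sq {R E : Type} [CommRing R] [IsDomain R] [IsLocalRing R] [Field E] [Algebra R E]
    (w : Valuation E (WithZero (Multiplicative ℤ))) (hw : w.Integers R)
    [Finite (IsLocalRing.ResidueField R)] (h2 : IsUnit (2 : R))
    (hsq : ∀ F c s q : R[X], F.Monic →
      (∀ j, (c - s ^ 2 - F * q).coeff j ∈ IsLocalRing.maximalIdeal R) →
      (∃ a b : R[X], ∀ j, (a * c + b * F - 1).coeff j ∈ IsLocalRing.maximalIdeal R) →
      ∃ s' q' : R[X], c = s' ^ 2 + F * q')
    (G : R[X]) (hGm : G.Monic) (hodd : Odd G.natDegree)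
    (hirr : Irreducible (G.map (IsLocalRing.residue R))) (H : E[X])
    (hH : ¬ G.map (algebraMap R E) ∣ H) :
    ∃ (a : E) (S : E[X]), a ≠ 0 ∧ G.map (algebraMap R E) ∣ H - C a * S ^ 2 := by
  have hGE : (G.map (algebraMap R E)).Monic := hGm.map _
  obtain ⟨H₁, hH₁⟩ : ∃ H₁, H₁ = H %ₘ G.map (algebraMap R E) := ⟨_, rfl⟩
  have hH₁0 : H₁ ≠ 0 := by
    rw [hH₁]
    intro h0
    exact hH ((modByMonic_eq_zero_iff_dvd hGE).1 h0)
  have hGd : G.map (algebraMap R E) ≠ 1 := by
    intro h1
    have := hGm.natDegree_map (algebraMap R E)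
    rw [h1, natDegree_one] at this
    rw [← this] at hodd
    exact absurd hodd (by decide)
  have hdeg : H₁.natDegree < G.natDegree := by
    rw [hH₁, ← hGm.natDegree_map (algebraMap R E)]
    exact natDegree_modByMonic_lt _ hGE hGd
  obtain ⟨l, H₂, j, hl, e1, e2, e3⟩ := exists_prim w hw H₁ hH₁0
  have hres : ∀ p : R[X], (∀ j, p.coeff j ∈ IsLocalRing.maximalIdeal R) ↔
      p.map (IsLocalRing.residue R) = 0 := by
    intro p
    rw [Polynomial.ext_iff]
    refine forall_congr' fun i => ?_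
    rw [coeff_map, coeff_zero, IsLocalRing.residue_eq_zero_iff]
  have hbar : ¬ G.map (IsLocalRing.residue R) ∣ H₂.map (IsLocalRing.residue R) := by
    intro hd
    have hne : H₂.map (IsLocalRing.residue R) ≠ 0 := by
      intro h0
      have := congrArg (fun p => p.coeff j) h0
      simp only [coeff_map, e2, map_one, coeff_zero] at this
      exact one_ne_zero this
    have h4 := natDegree_le_of_dvd hd hne
    rw [hGm.natDegree_map] at h4
    have h5 := natDegree_map_le (f := IsLocalRing.residue R) (p := H₂)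
    omega
  have h2κ : (2 : IsLocalRing.ResidueField R) ≠ 0 := by
    have := (IsLocalRing.residue_ne_zero_iff_isUnit (2 : R)).2 h2
    rwa [map_ofNat] at this
  obtain ⟨ε, s, hε, q, hq⟩ := sq_or h2κ hirr (hGm.map _) (by rwa [hGm.natDegree_map]) hbar
  have hsur : Function.Surjective (Polynomial.map (IsLocalRing.residue R)) :=
    Polynomial.map_surjective _ IsLocalRing.residue_surjective
  obtain ⟨ε', hε'⟩ := IsLocalRing.residue_surjective ε
  obtain ⟨s', hs'⟩ := hsur s
  obtain ⟨q', hq'⟩ := hsur q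
  have hcop : IsCoprime (H₂.map (IsLocalRing.residue R)) (G.map (IsLocalRing.residue R)) :=
    ((hirr.coprime_iff_not_dvd).2 hbar).symm
  have hcop' : IsCoprime ((C ε' * H₂).map (IsLocalRing.residue R))
      (G.map (IsLocalRing.residue R)) := by
    rw [Polynomial.map_mul, map_C, hε']
    refine IsCoprime.mul_left ?_ hcop
    exact ⟨C ε⁻¹, 0, by rw [zero_mul, add_zero, ← C_mul, inv_mul_cancel₀ hε, C_1]⟩
  obtain ⟨a, b, hab⟩ := hcop'
  obtain ⟨a', ha'⟩ := hsur a
  obtain ⟨b', hb'⟩ := hsur b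
  obtain ⟨s₁, q₁, h1⟩ := hsq G (C ε' * H₂) s' q' hGm ((hres _).2 (by
      rw [Polynomial.map_sub, Polynomial.map_sub, Polynomial.map_mul, Polynomial.map_mul,
        Polynomial.map_pow, map_C, hε', hs', hq', hq]
      ring)) ⟨a', b', (hres _).2 (by
      have e1 : (a' * (C ε' * H₂)).map (IsLocalRing.residue R) =
          a * (C ε' * H₂).map (IsLocalRing.residue R) := by rw [Polynomial.map_mul, ha']
      have e2 : (b' * G).map (IsLocalRing.residue R) = b * G.map (IsLocalRing.residue R) := by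
        rw [Polynomial.map_mul, hb']
      rw [Polynomial.map_sub, Polynomial.map_add, e1, e2, hab, Polynomial.map_one, sub_self])⟩
  have hε'u : IsUnit ε' := by
    rw [← IsLocalRing.residue_ne_zero_iff_isUnit, hε']
    exact hε
  have hεE : algebraMap R E ε' ≠ 0 := (hε'u.map (algebraMap R E)).ne_zero
  refine ⟨l * (algebraMap R E ε')⁻¹, s₁.map (algebraMap R E), mul_ne_zero hl (inv_ne_zero hεE), ?_⟩
  have h3 := congrArg (Polynomial.map (algebraMap R E)) h1
  rw [Polynomial.map_mul, map_C, Polynomial.map_add, Polynomial.map_pow, Polynomial.map_mul] at h3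
  have h6 : H = H₁ + G.map (algebraMap R E) * (H /ₘ G.map (algebraMap R E)) := by
    rw [hH₁, modByMonic_add_div]
  have h7 : H₁ = C (l * (algebraMap R E ε')⁻¹) *
      (s₁.map (algebraMap R E) ^ 2 + G.map (algebraMap R E) * q₁.map (algebraMap R E)) := by
    rw [← h3, e1, ← mul_assoc, ← C_mul, mul_assoc, inv_mul_cancel₀ hεE, mul_one]
  refine ⟨C (l * (algebraMap R E ε')⁻¹) * q₁.map (algebraMap R E) +
    H /ₘ G.map (algebraMap R E), ?_⟩
  linear_combination h6 + h7

end Run7.h270.PL
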