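import Pool.Agent.Run7.h286.PL.StmD
import Pool.Agent.Run7.h209.PL.Cmp
import Pool.Agent.Run7.h824.PL.HFC
import Pool.Agent.Run7.h886.TG.NvL
import Pool.Agent.Run7.h270.PL.Loc

/-!
# Project PRL, piece INF: no condition at infinity (helper270)
-/

set_option autoImplicit false
set_option linter.all false

open Polynomial IsDedekindDomain
open scoped Classical

namespace Run7.h270.PL

open Pool.Agent.N352.PJ (GoodR Ht Fam)
open Pool.Agent.TH115.GD (CompInf AtInf infMap pl)
open Run7.h784.TG (Fm nv)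
open Run7.h286.PL (P_HSQ)
open Run7.h286.PLC (P_INF)

section

variable {k K : Type} [Field k] [Field K] [Algebra k[X] K] [IsFractionRing k[X] K]

theorem infMap_reflect (m : ℕ) (p : k[X]) (hp : p.natDegree ≤ m) :
    infMap k K (reflect m p) * algebraMap k[X] K X ^ m = algebraMap k[X] K p := by
  have hX : algebraMap k[X] K X ≠ 0 := by simp
  letI : Invertible (algebraMap k[X] K X) := invertibleOfNonzero hX
  have h1 := eval₂_reflect_mul_pow ((algebraMap k[X] K).comp C) (algebraMap k[X] K X) m p hp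
  rw [invOf_eq_inv, ← Pool.Agent.TH115.GD.std_eq] at h1
  exact h1

/-- the polynomial over the ring `k[1/t]` -/
noncomputable def G0 (g N : ℕ) (f : k[X][X]) : k[X][X] :=
  ∑ j ∈ Finset.range (2 * g + 2), monomial j (reflect (2 * N * (2 * g + 1 - j)) (f.coeff j))

variable {g N : ℕ} {r : k[X]} {f : k[X][X]}

theorem G0_coeff (hf : Fm g N r f) (j : ℕ) :
    (G0 g N f).coeff j = reflect (2 * N * (2 * g + 1 - j)) (f.coeff j) := by
  rw [G0, finsetSum_coeff]
  simp only [coeff_monomial]
  rw [Finset.sum_ite_eq']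
  by_cases hj : j < 2 * g + 2
  · rw [if_pos (Finset.mem_range.2 hj)]
  · rw [if_neg (by rw [Finset.mem_range]; exact hj)]
    have : f.coeff j = 0 := coeff_eq_zero_of_natDegree_lt (by rw [hf.fam.ht.deg]; omega)
    rw [this, reflect_zero]

theorem G0_top (hf : Fm g N r f) : (G0 g N f).coeff (2 * g + 1) = 1 := by
  rw [G0_coeff hf]
  have h1 : f.coeff (2 * g + 1) = 1 := by
    have := hf.fam.ht.mon
    rw [Monic, leadingCoeff, hf.fam.ht.deg] at this
    exact this
  rw [h1, Nat.sub_self, mul_zero]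
  have := reflect_C (1 : k) 0
  rw [C_1] at this
  rw [this]
  simp

theorem G0_le (hf : Fm g N r f) : (G0 g N f).natDegree ≤ 2 * g + 1 := by
  rw [natDegree_le_iff_coeff_eq_zero]
  intro j hj
  rw [G0_coeff hf, coeff_eq_zero_of_natDegree_lt (by rw [hf.fam.ht.deg]; exact hj), reflect_zero]

theorem G0_monic (hf : Fm g N r f) : (G0 g N f).Monic :=
  monic_of_natDegree_le_of_coeff_eq_one _ (G0_le hf) (G0_top hf)

theorem G0_deg (hf : Fm g N r f) : (G0 g N f).natDegree = 2 * g + 1 :=
  le_antisymm (G0_le hf) (le_natDegree_of_ne_zero (by rw [G0_top hf]; exact one_ne_zero))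

theorem G0_res (hf : Fm g N r f) (j : ℕ) : ((G0 g N f).coeff j).coeff 0 = r.coeff j := by
  obtain ⟨h1, h2, h3, h4⟩ := hf.gr
  rcases lt_trichotomy j (2 * g + 1) with hj | hj | hj
  · rw [G0_coeff hf, coeff_reflect, revAt_zero]
    exact hf.fam.inf j (by omega)
  · rw [hj, G0_top hf, coeff_one_zero]
    rw [Monic, leadingCoeff, h3] at h1
    exact h1.symm
  · rw [coeff_eq_zero_of_natDegree_lt ((G0_le hf).trans_lt hj), coeff_zero,
      coeff_eq_zero_of_natDegree_lt (by rw [h3]; exact hj)]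

/-- scaling -/
theorem comp_eq (hf : Fm g N r f) (D : k[X]) :
    ((f.scaleRoots D).map (algebraMap k[X] K)).comp
      (C (algebraMap k[X] K X ^ (2 * N) * algebraMap k[X] K D) * X) =
    C ((algebraMap k[X] K X ^ (2 * N) * algebraMap k[X] K D) ^ (2 * g + 1)) *
      (G0 g N f).map (infMap k K) := by
  ext j
  rw [comp_C_mul_X_coeff, coeff_C_mul, coeff_map, coeff_map, coeff_scaleRoots, hf.fam.ht.deg,
    map_mul, map_pow]
  rcases Nat.lt_or_ge (2 * g + 1) j with hj | hj
  · rw [coeff_eq_zero_of_natDegree_lt ((G0_le hf).trans_lt hj),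
      coeff_eq_zero_of_natDegree_lt (by rw [hf.fam.ht.deg]; exact hj), map_zero, map_zero]
    ring
  · have h1 : (f.coeff j).natDegree ≤ 2 * N * (2 * g + 1 - j) := by
      rcases Nat.lt_or_ge (2 * g) j with h | h
      · have e : j = 2 * g + 1 := by omega
        have h1 : f.coeff (2 * g + 1) = 1 := by
          have := hf.fam.ht.mon
          rw [Monic, leadingCoeff, hf.fam.ht.deg] at this
          exact this
        rw [e, h1, natDegree_one]
        exact Nat.zero_le _
      · exact hf.fam.ht.ht j h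
    have h2 := infMap_reflect (K := K) _ _ h1
    rw [G0_coeff hf, ← h2]
    obtain ⟨i, hi⟩ := Nat.exists_eq_add_of_le hj
    have e : 2 * g + 1 - j = i := by omega
    rw [e, hi, pow_add, mul_pow _ _ i, pow_mul]
    ring

end

/-- the residue map -/
noncomputable def io (k K : Type) [Field k] [Field K] [Algebra k[X] K] [IsFractionRing k[X] K] :
    k →+* IsLocalRing.ResidueField ((pl (0 : k)).adicCompletionIntegers (AtInf K)) :=
  (IsLocalRing.residue _).comp ((algebraMap k[X] _).comp C)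

section

variable {k K : Type} [Field k] [Field K] [Algebra k[X] K] [IsFractionRing k[X] K]

theorem pl_X : (pl (0 : k)).asIdeal = Ideal.span {(X : k[X])} := by
  show Ideal.span {X - C 0} = _
  rw [C_0, sub_zero]

theorem res_eq (p : k[X]) : IsLocalRing.residue ((pl (0 : k)).adicCompletionIntegers (AtInf K))
    (algebraMap k[X] _ p) = io k K (p.coeff 0) := by
  have h1 : p - C (p.coeff 0) ∈ Ideal.span {(X : k[X])} := by
    rw [Ideal.mem_span_singleton, X_dvd_iff, coeff_sub, coeff_C_zero, sub_self]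
  have h2 := (Run7.h209.PL.mem_iff (K := AtInf K) (pl_X (k := k)) (p - C (p.coeff 0))).2
    (Ideal.mem_span_singleton.1 h1)
  rw [← IsLocalRing.residue_eq_zero_iff, map_sub, map_sub, sub_eq_zero] at h2
  exact h2

theorem io_bij : Function.Bijective (io k K) := by
  refine ⟨(io k K).injective, fun x => ?_⟩
  obtain ⟨y, rfl⟩ := IsLocalRing.residue_surjective x
  obtain ⟨a, ha⟩ := Run7.h209.PL.near_A (K := AtInf K) y
  refine ⟨a.coeff 0, ?_⟩
  rw [← res_eq, eq_comm, ← sub_eq_zero, ← map_sub, IsLocalRing.residue_eq_zero_iff]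
  exact ha

theorem inf_aux [Finite k] {g N : ℕ} {r : k[X]} {f : k[X][X]} (hf : Fm g N r f) (D : k[X])
    (hD : D ≠ 0) (φ : K →+* (pl (0 : k)).adicCompletion (AtInf K))
    (hφ : ∀ x : K, φ x = algebraMap (AtInf K) ((pl (0 : k)).adicCompletion (AtInf K)) x)
    (h : K[X]) (hco : IsCoprime h ((f.scaleRoots D).map (algebraMap k[X] K)))
    (hnorm : IsSquare (Algebra.norm K (AdjoinRoot.mk ((f.scaleRoots D).map (algebraMap k[X] K)) h))) :
    ∃ s : ((pl (0 : k)).adicCompletion (AtInf K))[X],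
      ((f.scaleRoots D).map (algebraMap k[X] K)).map φ ∣ h.map φ - s ^ 2 := by
  obtain ⟨E, hE⟩ : ∃ E, E = (pl (0 : k)).adicCompletion (AtInf K) := ⟨_, rfl⟩
  have hX : algebraMap k[X] K X ≠ 0 := by simp
  have hDK : algebraMap k[X] K D ≠ 0 := by
    rw [Ne, map_eq_zero_iff _ (IsFractionRing.injective k[X] K)]
    exact hD
  obtain ⟨c, hc⟩ : ∃ c, c = algebraMap k[X] K X ^ (2 * N) * algebraMap k[X] K D := ⟨_, rfl⟩
  have hc0 : c ≠ 0 := by rw [hc]; exact mul_ne_zero (pow_ne_zero _ hX) hDK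
  have hφc : φ c ≠ 0 := by
    rw [Ne, map_eq_zero]
    exact hc0
  -- the polynomial over the ring of integers
  obtain ⟨G, hG⟩ : ∃ G : ((pl (0 : k)).adicCompletionIntegers (AtInf K))[X],
      G = (G0 g N f).map (algebraMap k[X] _) := ⟨_, rfl⟩
  have hGm : G.Monic := by rw [hG]; exact (G0_monic hf).map _
  have hGd : G.natDegree = 2 * g + 1 := by rw [hG, (G0_monic hf).natDegree_map, G0_deg hf]
  have hGE : G.map (algebraMap ((pl (0 : k)).adicCompletionIntegers (AtInf K))
      ((pl (0 : k)).adicCompletion (AtInf K))) = ((G0 g N f).map (infMap k K)).map φ := by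
    rw [hG, Polynomial.map_map, Polynomial.map_map]
    congr 1
    refine RingHom.ext fun p => ?_
    rw [RingHom.comp_apply, RingHom.comp_apply, hφ]
    rfl
  have hGres : G.map (IsLocalRing.residue _) = r.map (io k K) := by
    ext j
    rw [hG, Polynomial.map_map, coeff_map, coeff_map, RingHom.comp_apply, res_eq, G0_res hf]
  have hirr : Irreducible (G.map (IsLocalRing.residue _)) := by
    rw [hGres]
    have h1 := (MulEquiv.irreducible_iff (Polynomial.mapEquiv (RingEquiv.ofBijective (io k K) io_bij))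
      (x := r)).2 hf.gr.2.1
    exact h1
  haveI hfin : Finite (IsLocalRing.ResidueField ((pl (0 : k)).adicCompletionIntegers (AtInf K))) :=
    Finite.of_surjective _ (io_bij (k := k) (K := K)).2
  have h2R : IsUnit (2 : (pl (0 : k)).adicCompletionIntegers (AtInf K)) := by
    rw [← IsLocalRing.residue_ne_zero_iff_isUnit, map_ofNat]
    have h1 : io k K 2 ≠ 0 := by
      rw [Ne, map_eq_zero]
      exact hf.two
    rwa [map_ofNat] at h1
  have hmax := Run7.h209.PL.maxIdeal (K := AtInf K) (pl_X (k := k))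
  have hadic : IsAdicComplete (IsLocalRing.maximalIdeal ((pl (0 : k)).adicCompletionIntegers (AtInf K)))
      ((pl (0 : k)).adicCompletionIntegers (AtInf K)) := by
    rw [hmax]
    exact Run7.h209.PL.adic (K := AtInf K) (pl_X (k := k))
  -- scaling
  obtain ⟨F, hF⟩ : ∃ F, F = (f.scaleRoots D).map (algebraMap k[X] K) := ⟨_, rfl⟩
  have hFm : F.Monic := by
    rw [hF]
    exact ((monic_scaleRoots_iff D).2 hf.fam.ht.mon).map _
  have hFd : F.natDegree = 2 * g + 1 := by
    rw [hF, ((monic_scaleRoots_iff D).2 hf.fam.ht.mon).natDegree_map, natDegree_scaleRoots,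
      hf.fam.ht.deg]
  rw [← hF] at hco hnorm ⊢
  have hcomp : (F.map φ).comp (C (φ c) * X) = C (φ c ^ (2 * g + 1)) *
      G.map (algebraMap _ ((pl (0 : k)).adicCompletion (AtInf K))) := by
    have h1 := congrArg (Polynomial.map φ) (comp_eq (K := K) hf D)
    rw [← hF, ← hc, Polynomial.map_comp, Polynomial.map_mul, Polynomial.map_mul, map_C, map_C, map_X,
      map_pow] at h1
    rw [h1, hGE]
  have hback : ∀ p : ((pl (0 : k)).adicCompletion (AtInf K))[X],
      (p.comp (C (φ c) * X)).comp (C (φ c)⁻¹ * X) = p := by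
    intro p
    rw [comp_assoc, mul_comp, C_comp, X_comp, ← mul_assoc, ← C_mul, mul_inv_cancel₀ hφc, C_1, one_mul,
      comp_X]
  have hcoE : IsCoprime (h.map φ) (F.map φ) := hco.map (mapRingHom φ)
  have hcoG : ¬ G.map (algebraMap _ ((pl (0 : k)).adicCompletion (AtInf K))) ∣
      (h.map φ).comp (C (φ c) * X) := by
    intro hd
    have h1 : IsCoprime ((h.map φ).comp (C (φ c) * X)) ((F.map φ).comp (C (φ c) * X)) :=
      hcoE.map (compRingHom (C (φ c) * X))
    rw [hcomp] at h1
    have h2 := h1.isUnit_of_dvd' hd (dvd_mul_left _ _)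
    have h3 := natDegree_eq_zero_of_isUnit h2
    rw [hGm.natDegree_map, hGd] at h3
    omega
  obtain ⟨a, S, ha, hS⟩ := local_sq (E := (pl (0 : k)).adicCompletion (AtInf K)) _
    (HeightOneSpectrum.adicCompletionIntegers.integers (K := AtInf K) (v := pl (0 : k))) h2R
    (Run7.h824.PL.T_HSQ _ (IsLocalRing.maximalIdeal _) h2R) G hGm (by rw [hGd]; exact ⟨g, rfl⟩) hirr
    ((h.map φ).comp (C (φ c) * X)) hcoG
  obtain ⟨S', hS'⟩ : ∃ S', S' = S.comp (C (φ c)⁻¹ * X) := ⟨_, rfl⟩
  have hdvd : F.map φ ∣ h.map φ - C a * S' ^ 2 := by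
    have h1 : (F.map φ).comp (C (φ c) * X) ∣ (h.map φ).comp (C (φ c) * X) - C a * S ^ 2 := by
      rw [hcomp]
      exact (IsUnit.mul_left_dvd (isUnit_C.2 (IsUnit.mk0 _ (pow_ne_zero (2 * g + 1) hφc)))).2 hS
    obtain ⟨q, hq⟩ := h1
    have h2 := congrArg (fun p => p.comp (C (φ c)⁻¹ * X)) hq
    simp only [sub_comp, mul_comp (C a), C_comp, pow_comp] at h2
    rw [mul_comp, hback, hback, ← hS'] at h2
    exact ⟨_, h2⟩
  -- the norm
  have hnE : algebraMap K K (Algebra.norm K (AdjoinRoot.mk F h)) = resultant F h (2 * g + 1) h.natDegree := by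
    have h1 := Run7.h886.TG.nv_eq F h hFm h.natDegree le_rfl
    rw [hFd] at h1
    exact h1
  have hnE' : φ (Algebra.norm K (AdjoinRoot.mk F h)) = nv (F.map φ) (h.map φ) := by
    rw [Run7.h886.TG.nv_eq _ _ (hFm.map φ) h.natDegree natDegree_map_le, hFm.natDegree_map, hFd,
      resultant_map_map, ← hnE]
    rfl
  have hn1 : nv (F.map φ) (h.map φ) = a ^ (2 * g + 1) * nv (F.map φ) S' ^ 2 := by
    have h1 : AdjoinRoot.mk (F.map φ) (h.map φ) = algebraMap _ _ a * AdjoinRoot.mk (F.map φ) S' ^ 2 := by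
      have h2 := AdjoinRoot.mk_eq_zero.2 hdvd
      rw [map_sub, sub_eq_zero, map_mul, map_pow] at h2
      exact h2
    unfold nv
    rw [h1, map_mul, map_pow, Algebra.norm_algebraMap, (AdjoinRoot.powerBasis (hFm.map φ).ne_zero).finrank,
      AdjoinRoot.powerBasis_dim, hFm.natDegree_map, hFd]
  have hn0 : nv (F.map φ) (h.map φ) ≠ 0 := by
    obtain ⟨u, w, huw⟩ := hcoE
    have h1 : AdjoinRoot.mk (F.map φ) u * AdjoinRoot.mk (F.map φ) (h.map φ) = 1 := by
      rw [← map_mul, ← map_one (AdjoinRoot.mk (F.map φ)), ← huw, map_add, map_mul _ w,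
        AdjoinRoot.mk_self, mul_zero, add_zero]
    have h2 := congrArg (Algebra.norm ((pl (0 : k)).adicCompletion (AtInf K))) h1
    rw [map_mul, map_one] at h2
    exact right_ne_zero_of_mul_eq_one h2
  obtain ⟨y, hy⟩ := hnorm
  have hsq : a ^ (2 * g + 1) * nv (F.map φ) S' ^ 2 = φ y * φ y := by
    rw [← hn1, ← hnE', hy, map_mul]
  have hS0 : nv (F.map φ) S' ≠ 0 := by
    intro h0
    rw [hn1, h0] at hn0
    exact hn0 (by ring)
  obtain ⟨b, hb⟩ : ∃ b, b = φ y * (a ^ g * nv (F.map φ) S')⁻¹ := ⟨_, rfl⟩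
  have hab : a = b ^ 2 := by
    have h1 : a ^ g ≠ 0 := pow_ne_zero _ ha
    rw [hb, mul_pow, sq (φ y), ← hsq]
    field_simp
    ring
  refine ⟨C b * S', ?_⟩
  rw [mul_pow, ← C_pow, ← hab]
  exact hdvd

end

theorem T_INF : P_INF := by
  intro k _ _ g N r f hf K _ _ _ D hD h hco hnorm
  exact inf_aux hf D hD (algebraMap K (CompInf k K)) (fun _ => rfl) h hco hnorm

end Run7.h270.PL
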