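import Pool.Agent.Run7.h286.PL.StmC
import Pool.Agent.N352.JB.All

/-!
# Project PRL, piece MWB: `J(K) / 2 J(K)` embeds in the 2-Selmer group (helper270)
-/

set_option autoImplicit false
set_option linter.all false

open Polynomial IsDedekindDomain
open scoped Classical

namespace Run7.h270.PL.MWB

open Pool.Agent.Y160.SE Pool.Agent.N352.JB
open Pool.Agent.TH115.GD (incl rs ak)
open Pool.Agent.Y713.Jac (J mapJ Gal Cochain IsCocycle IsTrivialOver)
open Pool.Agent.N106.JB (ad mu ad_mu mu_ad ad_inj ad_mul ad_div ad_pow ad_mapJ)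
open Run7.h286.PLC

section

variable {K : Type} [Field K] {f : K[X]}

theorem eqv (Pl : ∀ (E : Type) [Field E] [Algebra K E], Prop) :
    Equivalence fun c c' : {c : Cochain 2 f // SelCoc f Pl c} => Cohom f c.1 c'.1 := by
  refine ⟨fun c => ⟨1, one_pow _, fun σ => ?_⟩, ?_, ?_⟩
  · rw [map_one, div_one, mul_one]
  · rintro c c' ⟨R, hR, h⟩
    refine ⟨R⁻¹, by rw [inv_pow, hR, inv_one], fun σ => ?_⟩
    rw [h σ, map_inv, inv_div_inv, mul_assoc, div_mul_div_cancel, div_self', mul_one]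
  · rintro c c' c'' ⟨R, hR, h⟩ ⟨R', hR', h'⟩
    refine ⟨R' * R, by rw [mul_pow, hR, hR', one_mul], fun σ => ?_⟩
    rw [h σ, h' σ, map_mul, mul_assoc, mul_div_mul_comm]

theorem exact_of (Pl : ∀ (E : Type) [Field E] [Algebra K E], Prop)
    {c c' : {c : Cochain 2 f // SelCoc f Pl c}}
    (h : (Quot.mk _ c : SelH f Pl) = Quot.mk _ c') : Cohom f c.1 c'.1 := by
  have h1 := Quot.eqvGen_exact h
  rwa [(eqv (f := f) Pl).eqvGen_iff] at h1

/-- the cocycle of `Q` -/
noncomputable def coc (Q : J 2 f (SeparableClosure K)) : Cochain 2 f :=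
  fun σ => mapJ 2 f σ.toAlgHom Q / Q

theorem mapJ_mapJ {L L' L'' : Type} [Field L] [Algebra K L]
    [Field L'] [Algebra K L'] [Field L''] [Algebra K L''] (φ : L →ₐ[K] L') (ψ : L' →ₐ[K] L'')
    (x : J 2 f L) : mapJ 2 f ψ (mapJ 2 f φ x) = mapJ 2 f (ψ.comp φ) x := by
  apply ad_inj
  rw [ad_mapJ, ad_mapJ, ad_mapJ, jm_jm]

theorem coc_sel (hg : Good 2 (-1 : K) f) (Pl : ∀ (E : Type) [Field E] [Algebra K E], Prop)
    (Q : J 2 f (SeparableClosure K))
    (hfix : ∀ σ : Gal K, mapJ 2 f σ.toAlgHom (Q ^ 2) = Q ^ 2) : SelCoc f Pl (coc Q) := by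
  refine ⟨⟨?_, fun σ τ => ?_⟩, fun σ => ?_, fun E _ _ _ => ?_⟩
  · have h1 := (Pool.Agent.N615.JB.lc K (SeparableClosure K) f hg (ad Q)).comp
      fun x => (mu x : J 2 f (SeparableClosure K)) / Q
    have e : (fun x => (mu x : J 2 f (SeparableClosure K)) / Q) ∘
        (fun σ : Gal K => jm 2 f (ak σ) (ad Q)) = coc Q := by
      funext σ
      show mu (jm 2 f (ak σ) (ad Q)) / Q = mapJ 2 f σ.toAlgHom Q / Q
      have e1 : (mu (jm 2 f (ak σ) (ad Q)) : J 2 f (SeparableClosure K)) =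
          mapJ 2 f σ.toAlgHom Q := by
        apply ad_inj
        rw [ad_mu, ad_mapJ]
        rfl
      rw [e1]
    rw [← e]
    exact h1
  · show mapJ 2 f (σ * τ).toAlgHom Q / Q = mapJ 2 f σ.toAlgHom Q / Q *
      mapJ 2 f σ.toAlgHom (mapJ 2 f τ.toAlgHom Q / Q)
    have e : (σ * τ).toAlgHom = σ.toAlgHom.comp τ.toAlgHom := rfl
    rw [_root_.map_div, mapJ_mapJ, e, mul_comm, div_mul_div_cancel]
  · show (mapJ 2 f σ.toAlgHom Q / Q) ^ 2 = 1
    rw [div_pow, ← map_pow, hfix, div_self']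
  · obtain ⟨ι⟩ : Nonempty (SeparableClosure K →ₐ[K] SeparableClosure E) := ⟨IsSepClosed.lift⟩
    refine ⟨ι, mapJ 2 f ι Q, fun τ σ h => ?_⟩
    show mapJ 2 f ι (mapJ 2 f σ.toAlgHom Q / Q) = _
    have e : (τ.toAlgHom.restrictScalars K).comp ι = ι.comp σ.toAlgHom := AlgHom.ext fun x => h x
    rw [_root_.map_div, mapJ_mapJ, mapJ_mapJ, e]

end

theorem T_MWB : P_MWB := by
  intro K _ f hK2 hm hirr hsep hodd Pl
  have H := hyps
  have hg := Pool.Agent.N424.JB.good_two hK2 hm hsep hodd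
  obtain ⟨hd1, hd2, hd3⟩ := Pool.Agent.N615.JB.dbl K (SeparableClosure K) f hg
  have hinj := Pool.Agent.N655.JB.inj K (SeparableClosure K) f hg
  have hfix : ∀ (x : Jac 2 f K) (σ : SeparableClosure K ≃ₐ[K] SeparableClosure K),
      jm 2 f (ak σ) (jm 2 f (incl K K (SeparableClosure K)) x) =
        jm 2 f (incl K K (SeparableClosure K)) x := by
    intro x σ
    rw [jm_jm]
    congr 1
    congr 1
    exact AlgHom.ext fun y => σ.commutes y
  have hinj' : Function.Injective (mapJ 2 f (incl K K (SeparableClosure K))) := by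
    intro x y h
    apply ad_inj
    apply hinj
    rw [← ad_mapJ, ← ad_mapJ, h]
  have hfix' : ∀ (x : J 2 f K) (σ : Gal K),
      mapJ 2 f σ.toAlgHom (mapJ 2 f (incl K K (SeparableClosure K)) x) =
        mapJ 2 f (incl K K (SeparableClosure K)) x := by
    intro x σ
    apply ad_inj
    rw [ad_mapJ, ad_mapJ]
    exact hfix (ad x) σ
  refine ⟨fun P hP => ?_, fun hfin => ?_⟩
  · have hx : 2 • ad P = 0 := by
      rw [← ad_pow, hP]
      rfl
    apply ad_inj
    apply hinj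
    have h0 : ad (1 : J 2 f K) = 0 := rfl
    rw [h0, map_zero]
    apply Pool.Agent.N615.JB.tor K (SeparableClosure K) f hg hirr
    · rw [hd1, ← map_nsmul, hx, map_zero]
    · exact hfix (ad P)
  · -- division by two
    have hdiv : ∀ P : J 2 f K, ∃ Q : J 2 f (SeparableClosure K),
        Q ^ 2 = mapJ 2 f (incl K K (SeparableClosure K)) P := by
      intro P
      obtain ⟨Q, hQ⟩ := hd3 (jm 2 f (incl K K (SeparableClosure K)) (ad P))
      refine ⟨mu Q, ad_inj ?_⟩
      rw [ad_pow, ad_mu, hQ, ad_mapJ]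
    choose q hq using hdiv
    have hsel : ∀ P, SelCoc f Pl (coc (q P)) := fun P => coc_sel hg Pl (q P) fun σ => by
      rw [hq, hfix']
    have hΦ : ∀ P P' : J 2 f K, (Quot.mk _ ⟨coc (q P), hsel P⟩ : SelH f Pl) =
        Quot.mk _ ⟨coc (q P'), hsel P'⟩ → ∃ Q0 : J 2 f K, P = P' * Q0 ^ 2 := by
      intro P P' h
      obtain ⟨R, hR, hc⟩ := exact_of Pl h
      have hfx : ∀ τ : SeparableClosure K ≃ₐ[K] SeparableClosure K,
          jm 2 f (rs K τ) (ad (q P / (q P' * R))) = ad (q P / (q P' * R)) := by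
        intro τ
        have e1 : (rs K τ : SeparableClosure K →ₐ[K] SeparableClosure K) = τ.toAlgHom :=
          AlgHom.ext fun x => rfl
        rw [e1, ← ad_mapJ]
        congr 1
        have h1 : mapJ 2 f τ.toAlgHom (q P) / q P =
          mapJ 2 f τ.toAlgHom (q P') / q P' * (mapJ 2 f τ.toAlgHom R / R) := hc τ
        rw [div_eq_iff_eq_mul] at h1
        rw [_root_.map_div, map_mul, h1, ← mul_div_mul_comm, div_eq_div_iff_mul_eq_mul]
        rw [mul_assoc, mul_left_comm, div_mul_cancel]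
      obtain ⟨Q0, hQ0⟩ := fixed_class (E := K) H hg _ hfx
      refine ⟨mu Q0, hinj' ?_⟩
      have h2 : mapJ 2 f (incl K K (SeparableClosure K)) (mu Q0) = q P / (q P' * R) := by
        apply ad_inj
        rw [ad_mapJ, ad_mu, hQ0]
      rw [map_mul, map_pow, h2, ← hq, ← hq, div_pow, mul_pow, hR, mul_one, mul_div_cancel]
    let ψ : J 2 f K ⧸ (powMonoidHom 2 : J 2 f K →* _).range → SelH f Pl :=
      fun x => Quot.mk _ ⟨coc (q x.out), hsel x.out⟩
    have hψ : Function.Injective ψ := by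
      intro x y hxy
      obtain ⟨Q0, hQ0⟩ := hΦ _ _ hxy
      rw [← x.out_eq', ← y.out_eq', eq_comm, QuotientGroup.eq]
      refine ⟨Q0, ?_⟩
      rw [hQ0]
      show Q0 ^ 2 = _
      rw [inv_mul_cancel_left]
    haveI : Finite (J 2 f K ⧸ (powMonoidHom 2 : J 2 f K →* _).range) := Finite.of_injective ψ hψ
    refine ⟨?_, ?_⟩
    · rw [Subgroup.index]
      exact Nat.card_pos.ne'
    · exact Nat.card_le_card_of_injective ψ hψ

end Run7.h270.PL.MWB
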